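import Pool.Agent.TH676.T4.Cut
import Pool.Agent.TH676.T4.Pet
import Pool.Agent.TH497.T4.Elim

set_option autoImplicit false
set_option linter.unusedSectionVars false

/-! # Assembly of a graph from parts along a tree decomposition -/

namespace Pool.Agent.TH676.T4

open Finset Pool.Agent.TH462.T4

variable {V E : Type} [Fintype V] [DecidableEq V] [Fintype E] [DecidableEq E]

/-- a kind of parts of a graph: each part has edges `F`, inner vertices `I` and roots -/
structure Sys (src dst : E → V) (P : Type) where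
  roots : P → Finset V
  F : P → Finset E
  I : P → Finset V
  isE : P → Prop
  ok : P → Prop
  edge : ∀ e, src e ≠ dst e → ∃ p, ok p ∧ isE p ∧ F p = {e} ∧ I p = ∅
  ends : ∀ p e, ok p → e ∈ F p → src e ≠ dst e ∧ (src e ∈ I p ∨ src e ∈ roots p) ∧
    (dst e ∈ I p ∨ dst e ∈ roots p)
  disj : ∀ p, ok p → Disjoint (I p) (roots p)
  inc : ∀ p x, ok p → (x ∈ I p ∨ x ∈ roots p) → ∃ e ∈ F p, src e = x ∨ dst e = x

/-- a family of parts which meet only in roots -/
structure SFam {src dst : E → V} {P : Type} (S : Sys src dst P) (L : List P) : Prop where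
  parts : ∀ p ∈ L, S.ok p
  disj : L.Pairwise (fun p q => Disjoint (S.F p) (S.F q) ∧ Disjoint (S.I p) (S.I q))
  sep : ∀ p ∈ L, ∀ q ∈ L, Disjoint (S.I p) (S.roots q)

/-- the vertices which are not isolated and not inside a part -/
noncomputable def live {src dst : E → V} {P : Type} (S : Sys src dst P) (L : List P) : Finset V :=
  by classical exact univ.filter (fun x => Nis src dst x ∧ ∀ p ∈ L, x ∉ S.I p)

theorem mem_live {src dst : E → V} {P : Type} {S : Sys src dst P} {L : List P} {x : V} :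
    x ∈ live S L ↔ Nis src dst x ∧ ∀ p ∈ L, x ∉ S.I p := by
  unfold live; simp

theorem SFam.of_filter {src dst : E → V} {P : Type} {S : Sys src dst P} {L : List P}
    (h : SFam S L) (f : P → Bool) : SFam S (L.filter f) where
  parts := fun p hp => h.parts p (List.mem_of_mem_filter hp)
  disj := h.disj.filter f
  sep := fun p hp q hq => h.sep p (List.mem_of_mem_filter hp) q (List.mem_of_mem_filter hq)

/-- different parts of a family are disjoint -/
theorem SFam.ne {src dst : E → V} {P : Type} {S : Sys src dst P} {L : List P}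
    (h : SFam S L) {p q : P} (hp : p ∈ L) (hq : q ∈ L) (hne : p ≠ q) :
    Disjoint (S.F p) (S.F q) ∧ Disjoint (S.I p) (S.I q) := by
  have : Std.Symm (fun p q => Disjoint (S.F p) (S.F q) ∧ Disjoint (S.I p) (S.I q)) :=
    ⟨fun a b hab => ⟨hab.1.symm, hab.2.symm⟩⟩
  exact h.disj.forall hp hq hne

/-- the edges as parts -/
theorem exists_start {src dst : E → V} {P : Type} (S : Sys src dst P) :
    ∃ L : List P, SFam S L ∧ (∀ e, src e ≠ dst e → ∃ p ∈ L, e ∈ S.F p) ∧ (∀ p ∈ L, S.isE p) ∧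
      ∀ p ∈ L, ∃ e, S.roots p ⊆ {src e, dst e} ∧ S.I p = ∅ := by
  classical
  let g : {e // e ∈ nl src dst} → P := fun e => Classical.choose (S.edge e.1 (mem_nl.mp e.2))
  have hg : ∀ e, S.ok (g e) ∧ S.isE (g e) ∧ S.F (g e) = {e.1} ∧ S.I (g e) = ∅ :=
    fun e => Classical.choose_spec (S.edge e.1 (mem_nl.mp e.2))
  have hroots : ∀ e, S.roots (g e) ⊆ {src e.1, dst e.1} := by
    intro e x hx
    obtain ⟨d, hd, hdx⟩ := S.inc (g e) x (hg e).1 (Or.inr hx)
    rw [(hg e).2.2.1, mem_singleton] at hd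
    subst hd
    rw [mem_insert, mem_singleton]
    rcases hdx with h | h
    · exact Or.inl h.symm
    · exact Or.inr h.symm
  refine ⟨(nl src dst).attach.toList.map g, ⟨?_, ?_, ?_⟩, ?_, ?_, ?_⟩
  · intro p hp
    obtain ⟨e, _, rfl⟩ := List.mem_map.mp hp
    exact (hg e).1
  · rw [List.pairwise_map]
    refine (Finset.nodup_toList _).imp ?_
    intro a b hab
    rw [(hg a).2.2.1, (hg b).2.2.1, (hg a).2.2.2, (hg b).2.2.2]
    refine ⟨?_, disjoint_empty_left _⟩
    rw [disjoint_singleton]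
    exact fun h => hab (Subtype.ext h)
  · intro p hp q hq
    obtain ⟨e, _, rfl⟩ := List.mem_map.mp hp
    rw [(hg e).2.2.2]
    exact disjoint_empty_left _
  · intro e he
    refine ⟨g ⟨e, mem_nl.mpr he⟩, List.mem_map.mpr ⟨⟨e, mem_nl.mpr he⟩, by simp, rfl⟩, ?_⟩
    rw [(hg _).2.2.1]
    exact mem_singleton_self _
  · intro p hp
    obtain ⟨e, _, rfl⟩ := List.mem_map.mp hp
    exact (hg e).2.1
  · intro p hp
    obtain ⟨e, _, rfl⟩ := List.mem_map.mp hp
    exact ⟨e.1, hroots e, (hg e).2.2.2⟩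

/-- a family of parts covering the graph, whose sets of roots satisfy `In` -/
structure Cover {src dst : E → V} {P : Type} (S : Sys src dst P) (In : Finset V → Prop)
    (L : List P) : Prop where
  fam : SFam S L
  cov : ∀ e, src e ≠ dst e → ∃ p ∈ L, e ∈ S.F p
  inn : ∀ p ∈ L, In (S.roots p)

/-- merging all parts at a root `r` to one part -/
theorem Cover.step {src dst : E → V} {P : Type} {S : Sys src dst P} {In : Finset V → Prop}
    (hIn : ∀ Z Z', Z ⊆ Z' → In Z' → In Z) {L : List P} (hL : Cover S In L) {r : V} {W : Finset V}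
    (hr : r ∈ live S L) (hW : In W)
    (hmerge : ∀ L' : List P, SFam S L' → (∀ p ∈ L', r ∈ S.roots p) →
      (∀ e, src e ≠ dst e → (src e = r ∨ dst e = r) → ∃ p ∈ L', e ∈ S.F p) → L' ≠ [] →
      (∀ p ∈ L', S.roots p ⊆ W) → live S L ⊆ live S L' →
      ∃ p, S.ok p ∧ (∀ e, e ∈ S.F p ↔ ∃ q ∈ L', e ∈ S.F q) ∧
        (∀ x, x ∈ S.I p ↔ x = r ∨ ∃ q ∈ L', x ∈ S.I q) ∧ S.roots p ⊆ W.erase r)
    (hWm : ∀ Z, In Z → Z ⊆ live S L → r ∈ Z → Z ⊆ W) :
    ∃ L' : List P, Cover S In L' ∧ live S L' = (live S L).erase r := by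
  classical
  have hrl := mem_live.mp hr
  have hfil : ∀ p, p ∈ L.filter (fun p => decide (r ∈ S.roots p)) ↔ p ∈ L ∧ r ∈ S.roots p := by
    intro p; rw [List.mem_filter]; simp
  have hfil2 : ∀ p, p ∈ L.filter (fun p => decide (r ∉ S.roots p)) ↔ p ∈ L ∧ r ∉ S.roots p := by
    intro p; rw [List.mem_filter]; simp
  have hcov : ∀ e, src e ≠ dst e → (src e = r ∨ dst e = r) →
      ∃ p ∈ L.filter (fun p => decide (r ∈ S.roots p)), e ∈ S.F p := by
    intro e he her
    obtain ⟨p, hp, hep⟩ := hL.cov e he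
    refine ⟨p, (hfil p).mpr ⟨hp, ?_⟩, hep⟩
    obtain ⟨_, h1, h2⟩ := S.ends p e (hL.fam.parts p hp) hep
    have h3 := hrl.2 p hp
    rcases her with h | h
    · rw [h] at h1; exact h1.resolve_left h3
    · rw [h] at h2; exact h2.resolve_left h3
  obtain ⟨p', hp1, hp2, hp3, hp4⟩ := hmerge (L.filter (fun p => decide (r ∈ S.roots p)))
    (hL.fam.of_filter _) (fun p hp => ((hfil p).mp hp).2) hcov (by
      obtain ⟨e, he, her⟩ := hrl.1
      obtain ⟨p, hp, _⟩ := hcov e he her
      exact List.ne_nil_of_mem hp) (by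
      intro p hp
      have hp' := (hfil p).mp hp
      refine hWm _ (hL.inn p hp'.1) (fun x hx => mem_live.mpr ⟨?_, fun q hq hxq => ?_⟩) hp'.2
      · obtain ⟨e, he, hex⟩ := S.inc p x (hL.fam.parts p hp'.1) (Or.inr hx)
        exact ⟨e, (S.ends p e (hL.fam.parts p hp'.1) he).1, hex⟩
      · exact disjoint_left.mp (hL.fam.sep q hq p hp'.1) hxq hx) (by
      intro x hx
      have := mem_live.mp hx
      exact mem_live.mpr ⟨this.1, fun p hp => this.2 p ((hfil p).mp hp).1⟩)
  -- the roots of the new part are roots of old parts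
  have hrt : ∀ x ∈ S.roots p', ∃ q ∈ L, r ∈ S.roots q ∧ x ∈ S.roots q := by
    intro x hx
    obtain ⟨e, he, hex⟩ := S.inc p' x hp1 (Or.inr hx)
    obtain ⟨q, hq, heq⟩ := (hp2 e).mp he
    have hq' := (hfil q).mp hq
    refine ⟨q, hq'.1, hq'.2, ?_⟩
    have hxI : x ∉ S.I q := by
      intro h
      exact disjoint_left.mp (S.disj p' hp1) ((hp3 x).mpr (Or.inr ⟨q, hq, h⟩)) hx
    obtain ⟨_, h1, h2⟩ := S.ends q e (hL.fam.parts q hq'.1) heq
    rcases hex with h | h
    · rw [h] at h1; exact h1.resolve_left hxI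
    · rw [h] at h2; exact h2.resolve_left hxI
  have hF : ∀ q ∈ L, r ∉ S.roots q → Disjoint (S.F p') (S.F q) ∧ Disjoint (S.I p') (S.I q) := by
    intro q hq hrq
    constructor
    · rw [disjoint_left]
      intro e he heq
      obtain ⟨q', hq', he'⟩ := (hp2 e).mp he
      have h1 := (hfil q').mp hq'
      exact disjoint_left.mp (hL.fam.ne h1.1 hq (fun h => hrq (h ▸ h1.2))).1 he' heq
    · rw [disjoint_left]
      intro x hx hxq
      rcases (hp3 x).mp hx with rfl | ⟨q', hq', hx'⟩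
      · exact hrl.2 q hq hxq
      · have h1 := (hfil q').mp hq'
        exact disjoint_left.mp (hL.fam.ne h1.1 hq (fun h => hrq (h ▸ h1.2))).2 hx' hxq
  refine ⟨p' :: L.filter (fun p => decide (r ∉ S.roots p)), ⟨⟨?_, ?_, ?_⟩, ?_, ?_⟩, ?_⟩
  · intro p hp
    rcases List.mem_cons.mp hp with rfl | hp
    · exact hp1
    · exact hL.fam.parts p ((hfil2 p).mp hp).1
  · rw [List.pairwise_cons]
    refine ⟨fun q hq => ?_, (hL.fam.of_filter _).disj⟩
    have := (hfil2 q).mp hq
    exact hF q this.1 this.2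
  · have hsep1 : ∀ q ∈ L, Disjoint (S.I q) (S.roots p') := by
      intro q hq
      rw [disjoint_left]
      intro x hx hxp
      obtain ⟨q', hq', _, hxq'⟩ := hrt x hxp
      exact disjoint_left.mp (hL.fam.sep q hq q' hq') hx hxq'
    intro p hp q hq
    rcases List.mem_cons.mp hp with rfl | hp
    · rcases List.mem_cons.mp hq with rfl | hq
      · exact S.disj _ hp1
      · have hq' := (hfil2 q).mp hq
        rw [disjoint_left]
        intro x hx hxq
        rcases (hp3 x).mp hx with rfl | ⟨q', hq'', hx'⟩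
        · exact hq'.2 hxq
        · exact disjoint_left.mp (hL.fam.sep q' ((hfil q').mp hq'').1 q hq'.1) hx' hxq
    · have hp' := (hfil2 p).mp hp
      rcases List.mem_cons.mp hq with rfl | hq
      · exact hsep1 p hp'.1
      · exact hL.fam.sep p hp'.1 q ((hfil2 q).mp hq).1
  · intro e he
    obtain ⟨p, hp, hep⟩ := hL.cov e he
    by_cases h : r ∈ S.roots p
    · exact ⟨p', List.mem_cons_self, (hp2 e).mpr ⟨p, (hfil p).mpr ⟨hp, h⟩, hep⟩⟩
    · exact ⟨p, List.mem_cons_of_mem _ ((hfil2 p).mpr ⟨hp, h⟩), hep⟩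
  · intro p hp
    rcases List.mem_cons.mp hp with rfl | hp
    · exact hIn _ _ (hp4.trans (erase_subset _ _)) hW
    · exact hL.inn p ((hfil2 p).mp hp).1
  · ext x
    rw [mem_erase, mem_live, mem_live]
    constructor
    · rintro ⟨h1, h2⟩
      have h3 := h2 p' List.mem_cons_self
      refine ⟨fun h => h3 ((hp3 x).mpr (Or.inl h)), h1, fun p hp hxp => ?_⟩
      by_cases h : r ∈ S.roots p
      · exact h3 ((hp3 x).mpr (Or.inr ⟨p, (hfil p).mpr ⟨hp, h⟩, hxp⟩))
      · exact h2 p (List.mem_cons_of_mem _ ((hfil2 p).mpr ⟨hp, h⟩)) hxp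
    · rintro ⟨h0, h1, h2⟩
      refine ⟨h1, fun p hp hxp => ?_⟩
      rcases List.mem_cons.mp hp with rfl | hp
      · rcases (hp3 x).mp hxp with h | ⟨q, hq, hxq⟩
        · exact h0 h
        · exact h2 q ((hfil q).mp hq).1 hxq
      · exact h2 p ((hfil2 p).mp hp).1 hxp

/-- **Assembly.** -/
theorem assemble {src dst : E → V} {P : Type} (S : Sys src dst P)
    (hTD : Pool.Agent.TH497.TW.HasTD 5 src dst)
    (hmerge : ∀ (L : List P) (r : V) (W : Finset V), SFam S L → (∀ p ∈ L, r ∈ S.roots p) →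
      (∀ e, src e ≠ dst e → (src e = r ∨ dst e = r) → ∃ p ∈ L, e ∈ S.F p) → L ≠ [] →
      (∀ p ∈ L, S.roots p ⊆ W) → W.card ≤ 5 → 6 ≤ (live S L).card →
      ∃ p, S.ok p ∧ (∀ e, e ∈ S.F p ↔ ∃ q ∈ L, e ∈ S.F q) ∧
        (∀ x, x ∈ S.I p ↔ x = r ∨ ∃ q ∈ L, x ∈ S.I q) ∧ S.roots p ⊆ W.erase r) :
    ∃ L, SFam S L ∧ (∀ e, src e ≠ dst e → ∃ p ∈ L, e ∈ S.F p) ∧
      ((live S L).card = 5 ∨ ((live S L).card ≤ 5 ∧ ∀ p ∈ L, S.isE p)) := by
  obtain ⟨In, hIn1, hIn2, hIn3, hIn4⟩ := Pool.Agent.TH497.T4.elim hTD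
  have key : ∀ (n : ℕ) (L : List P), Cover S In L → (live S L).card = n + 5 →
      ∃ L', Cover S In L' ∧ (live S L').card = 5 := by
    intro n
    induction n with
    | zero => intro L h1 h2; exact ⟨L, h1, by omega⟩
    | succ n ih =>
      intro L h1 h2
      have hne : (live S L).Nonempty := card_pos.mp (by omega)
      obtain ⟨r, hr, W, hW1, hW2, hW3⟩ := hIn4 (live S L) hne (by
        intro x hx
        obtain ⟨e, he, hex⟩ := (mem_live.mp hx).1
        refine hIn1 _ _ ?_ (hIn2 e)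
        rw [singleton_subset_iff, mem_insert, mem_singleton]
        rcases hex with h | h
        · exact Or.inl h.symm
        · exact Or.inr h.symm)
      obtain ⟨L', h3, h4⟩ := h1.step hIn1 hr hW1 (by
        intro L' a1 a2 a3 a4 a5 a6
        refine hmerge L' r W a1 a2 a3 a4 a5 (hIn3 W hW1) ?_
        have := card_le_card a6
        omega) hW3
      refine ih L' h3 ?_
      rw [h4, card_erase_of_mem hr]
      omega
  obtain ⟨L0, h1, h2, h3, h4⟩ := exists_start S
  by_cases h5 : (live S L0).card ≤ 5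
  · exact ⟨L0, h1, h2, Or.inr ⟨h5, h3⟩⟩
  · obtain ⟨L, h6, h7⟩ := key ((live S L0).card - 5) L0 ⟨h1, h2, fun p hp => by
      obtain ⟨e, he, _⟩ := h4 p hp
      exact hIn1 _ _ he (hIn2 e)⟩ (by omega)
    exact ⟨L, h6.fam, h6.cov, Or.inl h7⟩

end Pool.Agent.TH676.T4
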