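import Pool.Agent.TH676.T4.Asm
import Pool.Agent.TH462.PW.IntFlow

set_option autoImplicit false
set_option linter.unusedSectionVars false

/-! # From minimal counterexamples to flows and even sets -/

namespace Pool.Agent.TH676.T4

open Finset Pool.Agent.TH462.T4

variable {V E : Type} [Fintype V] [DecidableEq V] [Fintype E] [DecidableEq E]

/-- bounded treewidth is preserved by deletions and contractions -/
theorem mc_hasTD (w : ℕ) :
    MC (V := V) (E := E) (fun src dst => Pool.Agent.TH497.TW.HasTD w src dst) where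
  del := fun src dst e h _ => Pool.Agent.TH497.TW.HasTD.loop src dst {e} h
  con := fun src dst e h hne => Pool.Agent.TH497.TW.HasTD.contract src dst e h hne

/-- the same graph with five more isolated vertices -/
def pd (g : E → V) : E → V ⊕ Fin 5 := fun e => Sum.inl (g e)

theorem crs_pd (src dst : E → V) (Y : Finset (V ⊕ Fin 5)) :
    crs (pd src) (pd dst) Y = crs src dst (univ.filter (fun v => Sum.inl v ∈ Y)) := by
  ext e
  rw [mem_crs, mem_crs]
  unfold pd
  simp

theorem Br.pd {src dst : E → V} (h : Br src dst ∅ ∅) :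
    Br (Pool.Agent.TH676.T4.pd src) (Pool.Agent.TH676.T4.pd dst) ∅ ∅ := by
  intro Y _
  rw [crs_pd]
  exact h _ (disjoint_empty_right _)

theorem HasTD.pd {w : ℕ} {src dst : E → V} (h : Pool.Agent.TH497.TW.HasTD w src dst) :
    Pool.Agent.TH497.TW.HasTD w (Pool.Agent.TH676.T4.pd src) (Pool.Agent.TH676.T4.pd dst) := by
  obtain ⟨n, par, B, h0, h1, h2, h4⟩ := h
  refine ⟨n, par, fun i => (B i).map ⟨Sum.inl, Sum.inl_injective⟩, h0, ?_, ?_, ?_⟩
  · intro e
    obtain ⟨i, hi, h5, h6⟩ := h1 e
    exact ⟨i, hi, mem_map_of_mem _ h5, mem_map_of_mem _ h6⟩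
  · intro i j v hji hi hvi hvj
    obtain ⟨x, hx, rfl⟩ := mem_map.mp hvi
    obtain ⟨y, hy, hxy⟩ := mem_map.mp hvj
    have : y = x := Sum.inl_injective hxy
    subst this
    exact mem_map_of_mem _ (h2 i j y hji hi hx hy)
  · intro i hi
    rw [card_map]
    exact h4 i hi

theorem PetMinor.of_pd {src dst : E → V} (h : PetMinor (pd src) (pd dst)) : PetMinor src dst := by
  obtain ⟨B, h1, h2, h3⟩ := h
  have hJ : ∀ e (A A' : Finset (V ⊕ Fin 5)), JoinsSet (pd src) (pd dst) e A A' →
      JoinsSet src dst e (univ.filter (fun v => Sum.inl v ∈ A))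
        (univ.filter (fun v => Sum.inl v ∈ A')) := by
    intro e A A' h
    unfold JoinsSet pd at h
    unfold JoinsSet
    simpa using h
  have hin : ∀ i x, x ∈ B i → ∃ v, x = Sum.inl v := by
    intro i x hx
    have key : ∃ A A' e, JoinsSet (pd src) (pd dst) e A A' ∧ A = {x} := by
      by_cases hB : {x} = B i
      · obtain ⟨y, hy, hyi⟩ := petEdges_cover i
        obtain ⟨d, hd⟩ := h3 y hy
        rcases hyi with rfl | rfl
        · exact ⟨_, _, d, hd, hB.symm⟩
        · exact ⟨_, B y.1, d, Or.symm hd, hB.symm⟩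
      · obtain ⟨d, hd⟩ := (h1 i).2 {x} (singleton_subset_iff.mpr hx) (singleton_nonempty _) hB
        exact ⟨_, _, d, hd, rfl⟩
    obtain ⟨A, A', e, he, rfl⟩ := key
    rcases he with ⟨h, _⟩ | ⟨_, h⟩
    · exact ⟨src e, (mem_singleton.mp h).symm⟩
    · exact ⟨dst e, (mem_singleton.mp h).symm⟩
  refine ⟨fun i => univ.filter (fun v => Sum.inl v ∈ B i), fun i => ⟨?_, ?_⟩, fun i j hij => ?_,
    fun x hx => ?_⟩
  · obtain ⟨x, hx⟩ := (h1 i).1
    obtain ⟨v, rfl⟩ := hin i x hx
    exact ⟨v, by simpa using hx⟩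
  · intro A hA hA0 hA1
    have hmem : ∀ v, (Sum.inl v : V ⊕ Fin 5) ∈ A.map ⟨Sum.inl, Sum.inl_injective⟩ ↔ v ∈ A := by
      intro v
      simp
    obtain ⟨e, he⟩ := (h1 i).2 (A.map ⟨Sum.inl, Sum.inl_injective⟩) (by
      intro x hx
      obtain ⟨v, hv, rfl⟩ := mem_map.mp hx
      exact (mem_filter.mp (hA hv)).2) (hA0.map) (by
      intro heq
      apply hA1
      refine subset_antisymm hA fun v hv => ?_
      rw [← hmem, heq]
      exact (mem_filter.mp hv).2)
    refine ⟨e, ?_⟩
    have := hJ _ _ _ he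
    unfold JoinsSet at this ⊢
    simp only [mem_filter, mem_univ, true_and, mem_sdiff, hmem] at this ⊢
    exact this
  · rw [disjoint_left]
    intro v hv hv2
    exact disjoint_left.mp (h2 i j hij) (mem_filter.mp hv).2 (mem_filter.mp hv2).2
  · obtain ⟨e, he⟩ := h3 x hx
    exact ⟨e, hJ _ _ _ he⟩

theorem FlowOn.of_pd {src dst : E → V} (h : FlowOn (pd src) (pd dst) ∅ ∅) : FlowOn src dst ∅ ∅ := by
  obtain ⟨f, h1, h2, h3⟩ := h
  refine ⟨f, fun v => ?_, h2, h3⟩
  rw [← h1 (Sum.inl v)]
  unfold bd pd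
  simp

/-- **From minimal counterexamples to flows.** -/
theorem flowOn_of_core
    (core : ∀ (V' : Type) [Fintype V'] [DecidableEq V'] (s d : E → V'),
      Pool.Agent.TH497.TW.HasTD 5 s d → ¬ PetMinor s d → 5 ≤ Fintype.card V' → MinCx s d → False)
    {src dst : E → V} (h1 : Pool.Agent.TH497.TW.HasTD 5 src dst) (h2 : ¬ PetMinor src dst)
    (h3 : Br src dst ∅ ∅) : FlowOn src dst ∅ ∅ := by
  apply FlowOn.of_pd
  by_contra h4
  obtain ⟨s, d, ⟨h5, h6⟩, h7⟩ := exists_minCx (MC.and (mc_hasTD 5) mc_noPet) (pd src) (pd dst)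
    ⟨HasTD.pd h1, fun h => h2 h.of_pd⟩ (Br.pd h3) h4
  exact core (V ⊕ Fin 5) s d h5 h6 (by simp) h7

open Pool.Agent.TH462.PW in
/-- an orientation of an even set of edges as a flow -/
theorem even_orient (src dst : E → V) (h : E → ZMod 2)
    (hb : ∀ v, ∑ e, ((if src e = v then h e else 0) + (if dst e = v then h e else 0)) = 0) :
    ∃ G : E → ℤ, (∀ e, (h e ≠ 0 → |G e| = 1) ∧ (h e = 0 → G e = 0)) ∧
      ∀ v, ∑ e, G e * icz src dst e v = 0 := by
  classical
  have h1 : ∀ x : ZMod 2, x ≠ 0 → x = 1 := by decide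
  obtain ⟨g, hg, hg0⟩ := int_mod (V := V) (E := {e : E // h e ≠ 0}) 2 (by omega)
    (fun e => src e.1) (fun e => dst e.1) (fun _ => 1) (fun e => by norm_num)
    (by
      intro v
      rw [← ZMod.intCast_zmod_eq_zero_iff_dvd, Int.cast_sum]
      refine Eq.trans ?_ (hb v)
      have h3 : ∑ e, ((if src e = v then h e else 0) + (if dst e = v then h e else 0))
          = ∑ e ∈ univ.filter (fun e => h e ≠ 0), ((1 * icz src dst e v : ℤ) : ZMod 2) := by
        rw [sum_filter]
        refine sum_congr rfl fun e _ => ?_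
        by_cases ho : h e = 0
        · rw [if_neg (not_not.mpr ho), ho]; simp
        · rw [if_pos ho, h1 _ ho]
          unfold icz
          by_cases a : src e = v <;> by_cases b : dst e = v <;> simp [a, b] <;> decide
      rw [h3, ← Finset.sum_subtype_eq_sum_filter]
      have h5 : (Finset.subtype (fun e => h e ≠ 0) univ : Finset {e : E // h e ≠ 0}) = univ := by
        ext e; simp
      rw [h5]
      simp [icz])
  refine ⟨fun e => if he : h e ≠ 0 then g ⟨e, he⟩ else 0, fun e => ⟨fun he => ?_, fun he => ?_⟩,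
    fun v => ?_⟩
  · beta_reduce
    rw [dif_pos he]
    have h2 := hg ⟨e, he⟩
    have h3 := h2.2
    push_cast at h3
    omega
  · beta_reduce
    rw [dif_neg (not_not.mpr he)]
  · have h3 : ∑ e, (if he : h e ≠ 0 then g ⟨e, he⟩ else 0) * icz src dst e v
        = ∑ e ∈ univ.filter (fun e => h e ≠ 0),
          (if he : h e ≠ 0 then g ⟨e, he⟩ else 0) * icz src dst e v := by
      rw [sum_filter]
      refine sum_congr rfl fun e _ => ?_
      by_cases ho : h e = 0
      · rw [if_neg (not_not.mpr ho), dif_neg (not_not.mpr ho), zero_mul]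
      · rw [if_pos ho]
    rw [h3, ← Finset.sum_subtype_eq_sum_filter]
    have h5 : (Finset.subtype (fun e => h e ≠ 0) univ : Finset {e : E // h e ≠ 0}) = univ := by
      ext e; simp
    rw [h5, ← hg0 v]
    refine sum_congr rfl fun e _ => ?_
    rw [dif_pos e.2]
    rfl

/-- the coordinates of the boundary -/
theorem bd_fst (src dst : E → V) (f : E → K4) (v : V) :
    (bd src dst f v).1 = ∑ e, ((if src e = v then (f e).1 else 0) +
      (if dst e = v then (f e).1 else 0)) := by
  unfold bd
  rw [Prod.fst_sum]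
  refine sum_congr rfl fun e _ => ?_
  by_cases h1 : src e = v <;> by_cases h2 : dst e = v <;> simp [h1, h2]

theorem bd_snd (src dst : E → V) (f : E → K4) (v : V) :
    (bd src dst f v).2 = ∑ e, ((if src e = v then (f e).2 else 0) +
      (if dst e = v then (f e).2 else 0)) := by
  unfold bd
  rw [Prod.snd_sum]
  refine sum_congr rfl fun e _ => ?_
  by_cases h1 : src e = v <;> by_cases h2 : dst e = v <;> simp [h1, h2]

open Pool.Agent.TH462.PW in
/-- **A nowhere-zero integer flow with values of absolute value at most three.** -/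
theorem FlowOn.int {src dst : E → V} (h : FlowOn src dst ∅ ∅) :
    ∃ F : E → ℤ, (∀ e, 1 ≤ |F e| ∧ |F e| ≤ 3) ∧ ∀ v, ∑ e, F e * icz src dst e v = 0 := by
  obtain ⟨f, h1, _, h3⟩ := h
  obtain ⟨G1, a1, a2⟩ := even_orient src dst (fun e => (f e).1) (fun v => by
    rw [← bd_fst src dst f v, h1 v]; rfl)
  obtain ⟨G2, b1, b2⟩ := even_orient src dst (fun e => (f e).2) (fun v => by
    rw [← bd_snd src dst f v, h1 v]; rfl)
  refine ⟨fun e => G1 e + 2 * G2 e, fun e => ?_, fun v => ?_⟩
  · have h4 := h3 e (notMem_empty _) (notMem_empty _)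
    by_cases c1 : (f e).1 = 0
    · by_cases c2 : (f e).2 = 0
      · exact absurd (Prod.ext c1 c2) h4
      · have d1 := (a1 e).2 c1
        have d2 := (b1 e).1 c2
        beta_reduce
        rw [d1]
        rcases (abs_eq (by norm_num : (0:ℤ) ≤ 1)).mp d2 with h | h <;> rw [h] <;> norm_num
    · by_cases c2 : (f e).2 = 0
      · have d1 := (a1 e).1 c1
        have d2 := (b1 e).2 c2
        beta_reduce
        rw [d2]
        rcases (abs_eq (by norm_num : (0:ℤ) ≤ 1)).mp d1 with h | h <;> rw [h] <;> norm_num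
      · have d1 := (a1 e).1 c1
        have d2 := (b1 e).1 c2
        beta_reduce
        rcases (abs_eq (by norm_num : (0:ℤ) ≤ 1)).mp d1 with h | h <;>
          rcases (abs_eq (by norm_num : (0:ℤ) ≤ 1)).mp d2 with h' | h' <;>
            rw [h, h'] <;> norm_num
  · have : ∑ e, (G1 e + 2 * G2 e) * icz src dst e v
        = ∑ e, G1 e * icz src dst e v + 2 * ∑ e, G2 e * icz src dst e v := by
      rw [mul_sum, ← sum_add_distrib]
      refine sum_congr rfl fun e _ => ?_
      ring
    rw [this, a2 v, b2 v]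
    norm_num

/-- the degree parity of the support of a mod 2 flow -/
theorem even_support (src dst : E → V) (h : E → ZMod 2)
    (hb : ∀ v, ∑ e, ((if src e = v then h e else 0) + (if dst e = v then h e else 0)) = 0) (v : V) :
    Even (((univ.filter (fun e => h e ≠ 0)).filter (fun e => src e = v)).card
      + ((univ.filter (fun e => h e ≠ 0)).filter (fun e => dst e = v)).card) := by
  have h1 : ∀ x : ZMod 2, x ≠ 0 → x = 1 := by decide
  rw [← ZMod.natCast_eq_zero_iff_even]
  push_cast
  rw [filter_filter, filter_filter, ← Finset.sum_boole, ← Finset.sum_boole]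
  refine Eq.trans ?_ (hb v)
  rw [sum_add_distrib]
  congr 1
  · refine sum_congr rfl fun e _ => ?_
    by_cases a : h e = 0 <;> by_cases b : src e = v
    · simp [a]
    · simp [a, b]
    · simp [h1 _ a, b]
    · simp [b]
  · refine sum_congr rfl fun e _ => ?_
    by_cases a : h e = 0 <;> by_cases b : dst e = v
    · simp [a]
    · simp [a, b]
    · simp [h1 _ a, b]
    · simp [b]

/-- **Two even sets which cover all edges.** -/
theorem FlowOn.even {src dst : E → V} (h : FlowOn src dst ∅ ∅) :
    ∃ C₁ C₂ : Finset E, C₁ ∪ C₂ = Finset.univ ∧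
      (∀ v, Even ((C₁.filter (fun e => src e = v)).card + (C₁.filter (fun e => dst e = v)).card)) ∧
      ∀ v, Even ((C₂.filter (fun e => src e = v)).card + (C₂.filter (fun e => dst e = v)).card) := by
  obtain ⟨f, h1, _, h3⟩ := h
  refine ⟨univ.filter (fun e => (f e).1 ≠ 0), univ.filter (fun e => (f e).2 ≠ 0), ?_, ?_, ?_⟩
  · ext e
    simp only [mem_union, mem_filter, mem_univ, true_and, iff_true]
    by_contra h4
    push Not at h4
    exact h3 e (notMem_empty _) (notMem_empty _) (Prod.ext h4.1 h4.2)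
  · exact even_support src dst (fun e => (f e).1) (fun v => by
      rw [← bd_fst src dst f v, h1 v]; rfl)
  · exact even_support src dst (fun e => (f e).2) (fun v => by
      rw [← bd_snd src dst f v, h1 v]; rfl)

end Pool.Agent.TH676.T4
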